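import Pool.Agent.Helper69_SER.Basic

/-!
# Squad SER: modules SL1, D1, D1q, L1, L2, cross
-/

set_option autoImplicit false

namespace SER.H8

open Function

section

variable {R : Type} [Ring R] {X : Type} [AddCommGroup X] [Module R X]
  {Y : Type} [AddCommGroup Y] [Module R Y]

/-- an injective map `i` and a surjective map `s` between chain modules: there is a bijective
map `w` which is `i`, `s` or `i + s`. -/
theorem exists_bij (hX : Chain R X) (hY : Chain R Y) {i s : X →ₗ[R] Y} (hi : Injective i)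
    (hs : Surjective s) :
    ∃ w : X →ₗ[R] Y, Bijective w ∧ ((w = i) ∨ (w = s ∧ Injective s) ∨ (w = i + s)) := by
  by_cases h1 : Surjective i
  · exact ⟨i, ⟨hi, h1⟩, Or.inl rfl⟩
  · by_cases h2 : Injective s
    · exact ⟨s, ⟨h2, hs⟩, Or.inr (Or.inl ⟨rfl, h2⟩)⟩
    · exact ⟨i + s, bij_add hX hY hi h1 hs h2, Or.inr (Or.inr rfl)⟩

end

/-- (SL1) -/
theorem sl1 : SL1Stmt := by
  intro R _ Y _ _ hY B φ hφ
  have hB : Chain R B := Chain.of_inj hY.2 B.subtype B.injective_subtype
  obtain ⟨w, hw, -⟩ := exists_bij hB hY.2 B.injective_subtype hφ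
  exact ⟨LinearEquiv.ofBijective w hw⟩

/-- (D1) -/
theorem d1 : D1Stmt := by
  intro R _ X _ _ hX A μ hμ
  have hQ : Chain R (X ⧸ A) := Chain.of_surj hX.2 A.mkQ A.mkQ_surjective
  obtain ⟨w, hw, -⟩ := exists_bij hX.2 hQ hμ A.mkQ_surjective
  let e := LinearEquiv.ofBijective w hw
  refine ⟨e.symm.toLinearMap ∘ₗ A.mkQ, ?_, ?_⟩
  · exact e.symm.surjective.comp A.mkQ_surjective
  · rw [LinearMap.ker_comp_of_ker_eq_bot _ (LinearMap.ker_eq_bot.2 e.symm.injective)]
    exact A.ker_mkQ

/-- (D1q) -/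
theorem d1q : D1qStmt := by
  intro R _ X _ _ hX T h
  obtain ⟨A, f, hf⟩ := h.exists_inj
  let g : (X ⧸ T) →ₗ[R] (X ⧸ T) ⧸ A := A.mkQ
  let q : X →ₗ[R] (X ⧸ T) ⧸ A := A.mkQ ∘ₗ T.mkQ
  have hq : Surjective q := A.mkQ_surjective.comp T.mkQ_surjective
  have hQ : Chain R ((X ⧸ T) ⧸ A) := Chain.of_surj hX.2 q hq
  obtain ⟨w, hw, -⟩ := exists_bij hX.2 hQ hf hq
  let e := LinearEquiv.ofBijective w hw
  refine ⟨e.symm.toLinearMap ∘ₗ q, ?_, ?_⟩
  · exact e.symm.surjective.comp hq
  · intro x hx
    have h1 : T.mkQ x = 0 := by simpa using hx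
    rw [LinearMap.mem_ker]
    simp [q, h1]

/-- (L1) -/
theorem l1 : L1Stmt := by
  intro R _ V _ _ X _ _ Y _ _ hV hX hY hsq j p hj hp
  obtain ⟨D, φ, hφ⟩ := hsq
  let V' : Submodule R V := D.comap p
  let q : V' →ₗ[R] D := (p ∘ₗ V'.subtype).codRestrict D (fun x => x.2)
  have hq : Surjective q := by
    intro d
    obtain ⟨v, hv⟩ := hp d
    refine ⟨⟨v, ?_⟩, ?_⟩
    · change p v ∈ D
      rw [hv]
      exact d.2
    · exact Subtype.ext hv
  have hV' : Chain R V' := Chain.of_inj hV.2 V'.subtype V'.injective_subtype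
  have h1 : Injective (j ∘ₗ V'.subtype) := hj.comp V'.injective_subtype
  have h2 : Surjective (φ ∘ₗ q) := hφ.comp hq
  obtain ⟨w, hw, -⟩ := exists_bij hV' hX.2 h1 h2
  let e := LinearEquiv.ofBijective w hw
  exact ⟨V'.subtype ∘ₗ e.symm.toLinearMap, V'.injective_subtype.comp e.symm.injective⟩

/-- (L2) -/
theorem l2 : L2Stmt := by
  intro R _ V _ _ X _ _ Y _ _ hV hX hY hsq p j hp hj
  obtain ⟨D, φ, hφ⟩ := hsq
  -- `X' = p⁻¹ (j D)`
  let D' : Submodule R V := D.map j
  let eD : D ≃ₗ[R] D' := Submodule.equivMapOfInjective j hj D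
  let X' : Submodule R X := D'.comap p
  let q : X' →ₗ[R] D' := (p ∘ₗ X'.subtype).codRestrict D' (fun x => x.2)
  have hq : Surjective q := by
    intro d
    obtain ⟨v, hv⟩ := hp d
    refine ⟨⟨v, ?_⟩, ?_⟩
    · change p v ∈ D'
      rw [hv]
      exact d.2
    · exact Subtype.ext hv
  let φ' : D' →ₗ[R] X := φ ∘ₗ eD.symm.toLinearMap
  have hφ' : Surjective φ' := hφ.comp eD.symm.surjective
  have hX' : Chain R X' := Chain.of_inj hX.2 X'.subtype X'.injective_subtype
  -- surjectivity of `V → X` once `V ≃ D'`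
  by_cases h1 : Surjective X'.subtype
  · have h2 : D' = ⊤ := by
      rw [eq_top_iff]
      intro v _
      obtain ⟨x, rfl⟩ := hp v
      obtain ⟨x', hx'⟩ := h1 x
      have : p x' ∈ D' := x'.2
      rw [← hx']
      exact this
    let e2 : V ≃ₗ[R] D' := (LinearEquiv.ofTop D' h2).symm
    exact ⟨φ' ∘ₗ e2.toLinearMap, hφ'.comp e2.surjective⟩
  · by_cases h2 : Injective (φ' ∘ₗ q)
    · -- `ker p = 0`
      have h3 : Injective p := by
        rw [← LinearMap.ker_eq_bot, eq_bot_iff]
        intro x hx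
        rw [LinearMap.mem_ker] at hx
        have hxX : x ∈ X' := by
          change p x ∈ D'
          rw [hx]
          exact zero_mem _
        have h4 : (⟨x, hxX⟩ : X') = 0 := by
          apply h2
          have : q ⟨x, hxX⟩ = 0 := Subtype.ext hx
          simp [this]
        have := congrArg (Subtype.val) h4
        simpa using this
      let e := LinearEquiv.ofBijective p ⟨h3, hp⟩
      exact ⟨e.symm.toLinearMap, e.symm.surjective⟩
    · -- `w = inc + φ' q` bijective
      have hw : Bijective (X'.subtype + φ' ∘ₗ q) :=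
        bij_add hX' hX.2 X'.injective_subtype h1 (hφ'.comp hq) h2
      let w : X' ≃ₗ[R] X := LinearEquiv.ofBijective _ hw
      have hwk : ∀ x : X', q x = 0 → w x = (x : X) := by
        intro x hx
        change (x : X) + φ' (q x) = x
        rw [hx, map_zero, add_zero]
      -- the map `X → D'`, `x ↦ q (w⁻¹ x)`, has kernel `ker p`
      let r : X →ₗ[R] D' := q ∘ₗ w.symm.toLinearMap
      have hr : Surjective r := hq.comp w.symm.surjective
      have hker : LinearMap.ker p ≤ LinearMap.ker r := by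
        intro x hx
        rw [LinearMap.mem_ker] at hx ⊢
        have hxX : x ∈ X' := by
          change p x ∈ D'
          rw [hx]
          exact zero_mem _
        have h5 : q ⟨x, hxX⟩ = 0 := Subtype.ext hx
        have h6 : w.symm x = ⟨x, hxX⟩ := by
          rw [LinearEquiv.symm_apply_eq, hwk _ h5]
        change q (w.symm x) = 0
        rw [h6, h5]
      let s : V →ₗ[R] D' := (LinearMap.ker p).liftQ r hker ∘ₗ
        (p.quotKerEquivOfSurjective hp).symm.toLinearMap
      have hs : Surjective s := by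
        intro d
        obtain ⟨x, hx⟩ := hr d
        refine ⟨p x, ?_⟩
        have h7 : (p.quotKerEquivOfSurjective hp).symm (p x) = Submodule.Quotient.mk x := by
          rw [LinearEquiv.symm_apply_eq]
          rfl
        simp only [s, LinearMap.comp_apply, LinearEquiv.coe_coe, h7, Submodule.liftQ_apply]
        exact hx
      exact ⟨φ' ∘ₗ s, hφ'.comp hs⟩

/-- (cross) -/
theorem cross : CrossStmt := by
  intro R _ A _ _ B _ _ hA hB hAB hBA
  obtain ⟨D, φ, hφ⟩ := hBA
  have hD : Chain R D := Chain.of_inj hA.2 D.subtype D.injective_subtype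
  have hDn : Nontrivial D := by
    have := hB.1
    exact hφ.nontrivial
  have hDu : Uni R D := ⟨hDn, hD⟩
  refine ⟨ModuleCat.of R D, hDu, ⟨D.subtype, D.injective_subtype⟩, ?_, ⟨φ, hφ⟩, ?_⟩
  · exact l1 R D A B hDu hA hB hAB D.subtype φ D.injective_subtype hφ
  · -- `B` is an epimorphic image of `D ≤ A`; `D` is a subquotient of `B`
    have hsq : Sq R D B := Sq.trans (Sq.of_inj D.subtype D.injective_subtype) hAB
    exact l2 R B D B hB hDu hB hsq φ LinearMap.id hφ injective_id

end SER.H8
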